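import Pool.Agent.R595.EP.Final
import Pool.Agent.R595.EP.A
import Pool.Agent.R595.EP.B
import Pool.Agent.R595.EP.C

/-!
# MP_efa640_lc: the orders `E_P` are all isomorphic iff the continuum hypothesis holds

The definitions (the full language of `ℕ+`, saturation, `star`, `mu`, `pow`, `equi`, `E`, `Prec`,
`Le`, `Primes`, `NonPr`) are in `Pool/Agent/R595/EP/Defs.lean`.
-/

set_option autoImplicit false

universe w

namespace Pool.Agent.Results.MP_efa640_lc.IsomorphicIffCH

open Pool.Agent.R595.EP Filter Cardinal FirstOrder FirstOrder.Language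

/-- Let `M` be a nonstandard model of the full theory of `ℕ+` in which every family of at most `𝔠`
definable sets with the finite intersection property has nonempty intersection. For nonprincipal
ultrafilters `P`, `Q` containing the set of primes, the orders `E_P` and `E_Q` are isomorphic if
and only if the ultrapowers of `(ℕ+, ≤)` by `P` and `Q` are isomorphic. All the orders `E_P` are
isomorphic if and only if the continuum hypothesis holds. -/
theorem result (M : Type w) [Full.Structure M] (hM : Full.ElementarilyEquivalent M ℕ+)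
    (hS : Saturated M) :
    (∀ P Q : Ultrafilter ℕ+, Primes ∈ P → NonPr P → Primes ∈ Q → NonPr Q →
      (Nonempty (Le M P ≃r Le M Q) ↔
        Nonempty (Germ (P : Filter ℕ+) ℕ+ ≃o Germ (Q : Filter ℕ+) ℕ+))) ∧
    ((∀ P Q : Ultrafilter ℕ+, Primes ∈ P → NonPr P → Primes ∈ Q → NonPr Q →
      Nonempty (Le M P ≃r Le M Q)) ↔ ℵ₁ = continuum.{0}) :=
  ⟨fun P Q hP hP' hQ hQ' => le_iso_iff taskC M hM hS P Q hP hP' hQ hQ',
    main taskA taskB taskC M hM hS⟩

end Pool.Agent.Results.MP_efa640_lc.IsomorphicIffCH
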